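import Mathlib

set_option autoImplicit false
open Real Filter Topology

namespace Pool.Agent.H.MP_b76267_pr

noncomputable def aa (k : ℤ) : ℝ := exp (-(k : ℝ) ^ 2 / 6)
noncomputable def pp (k : ℤ) : ℝ := k * sin (2 * π * (k / 3)) * aa k
noncomputable def qq (k : ℤ) : ℝ := k ^ 2 * exp |(k : ℝ)| * aa k

theorem master : Summable fun k : ℤ => exp (3 * |(k : ℝ)|) * aa k := by
  have h : Summable fun k : ℤ => exp (-|(k : ℝ)|) :=
    Summable.of_nat_of_neg (by simpa using summable_exp_neg_nat) (by simpa using summable_exp_neg_nat)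
  refine Summable.of_nonneg_of_le (fun k => by unfold aa; positivity) (fun k => ?_) (h.mul_left (exp 24))
  rw [aa, ← exp_add, ← exp_add, exp_le_exp, ← sq_abs]
  nlinarith [sq_nonneg (|(k : ℝ)| - 12)]

theorem aa_pos (k : ℤ) : 0 < aa k := exp_pos _

theorem sa : Summable aa :=
  master.of_nonneg_of_le (fun k => (aa_pos k).le) fun k =>
    le_mul_of_one_le_left (aa_pos k).le (one_le_exp (by positivity))

theorem le_e (x : ℝ) : |x| ≤ exp |x| := by linarith [add_one_le_exp |x|]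

theorem sq' : Summable qq :=
  master.of_nonneg_of_le (fun k => by unfold qq aa; positivity) fun k => by
    refine mul_le_mul_of_nonneg_right ?_ (aa_pos k).le
    rw [show 3 * |(k : ℝ)| = |(k : ℝ)| + |(k : ℝ)| + |(k : ℝ)| by ring, exp_add, exp_add, ← sq_abs, sq]
    gcongr <;> exact le_e _

theorem pp_abs (k : ℤ) : |pp k| ≤ |(k : ℝ)| * aa k := by
  rw [pp, abs_mul, abs_mul, abs_of_pos (aa_pos k)]
  exact mul_le_mul_of_nonneg_right (mul_le_of_le_one_right (abs_nonneg _) (abs_sin_le_one _))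
    (aa_pos k).le

theorem sp : Summable pp :=
  Summable.of_norm_bounded master fun k => (pp_abs k).trans (mul_le_mul_of_nonneg_right
    ((le_e _).trans (exp_le_exp.mpr (by linarith [abs_nonneg (k : ℝ)]))) (aa_pos k).le)

theorem ppos : 0 < ∑' k, pp k := by
  obtain ⟨q, hq⟩ : ∃ q, q = exp (-1 / 6 : ℝ) := ⟨_, rfl⟩
  have q0 : 0 < q := hq ▸ exp_pos _
  have q6 : q ^ 6 = exp (-1) := by rw [hq, ← exp_nat_mul]; norm_num
  have q1 : 0.8464 < q := lt_of_pow_lt_pow_left₀ 6 q0.le (by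
    rw [q6]; exact lt_trans (by norm_num) exp_neg_one_gt_d9)
  have q2 : q < 0.8465 := lt_of_pow_lt_pow_left₀ 6 (by norm_num) (by
    rw [q6]; exact lt_trans exp_neg_one_lt_d9 (by norm_num))
  have ha : ∀ n : ℕ, aa n = q ^ (n ^ 2) := fun n => by
    rw [aa, hq, ← exp_nat_mul]; congr 1; push_cast; ring
  have h1 := sp.hasSum.nat_add_neg
  have h2 : ∀ n : ℕ, pp n + pp (-n) = 2 * pp n := fun n => by
    simp only [pp, aa]; push_cast
    rw [neg_div (3 : ℝ), mul_neg (2 * π), sin_neg]; ring_nf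
  simp only [h2] at h1
  have h3 : Summable fun n : ℕ => pp n := sp.comp_injective Nat.cast_injective
  have h4 : ∑' k, pp k = 2 * ∑' n : ℕ, pp n := by
    rw [← tsum_mul_left, h1.tsum_eq]; simp [pp]
  rw [h4, ← h3.sum_add_tsum_nat_add 8]
  have h5 : -(16 * q ^ 64) ≤ ∑' n : ℕ, pp (n + 8 : ℕ) := by
    have := (summable_geometric_two.mul_left (-(8 * q ^ 64))).tsum_le_tsum (g := fun n : ℕ =>
      pp (n + 8 : ℕ)) (fun n => ?_) ((summable_nat_add_iff 8).mpr h3)
    · rw [tsum_mul_left, tsum_geometric_two] at this; linarith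
    · refine le_trans ?_ (neg_le_of_abs_le (pp_abs _))
      rw [neg_mul, neg_le_neg_iff, ha, Int.cast_natCast, abs_of_nonneg (Nat.cast_nonneg _)]
      have e1 : ((n + 8 : ℕ) : ℝ) ≤ 8 * 2 ^ n := by
        have : n < 2 ^ n := Nat.lt_two_pow_self
        exact_mod_cast (by omega)
      have e2 : q ^ ((n + 8) ^ 2) ≤ q ^ 64 * (q ^ 16) ^ n := by
        rw [← pow_mul, ← pow_add]
        exact pow_le_pow_of_le_one q0.le (by linarith) (by nlinarith)
      have e3 : 2 * q ^ 16 ≤ 1 / 2 := by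
        have := pow_le_pow_left₀ q0.le q2.le 16
        norm_num at this ⊢; linarith
      calc _ ≤ 8 * 2 ^ n * (q ^ 64 * (q ^ 16) ^ n) := by gcongr
        _ = 8 * q ^ 64 * (2 * q ^ 16) ^ n := by rw [mul_pow]; ring
        _ ≤ _ := by gcongr
  have s1 : sin (2 * π * (1 / 3)) = √3 / 2 := by
    rw [show 2 * π * (1 / 3) = π - π / 3 by ring, sin_pi_sub, sin_pi_div_three]
  have s2 : sin (2 * π * (2 / 3)) = -(√3 / 2) := by
    rw [show 2 * π * (2 / 3) = π / 3 + π by ring, sin_add_pi, sin_pi_div_three]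
  have s3 : ∀ x : ℝ, sin (2 * π * ((x + 3) / 3)) = sin (2 * π * (x / 3)) := fun x => by
    rw [show 2 * π * ((x + 3) / 3) = 2 * π * (x / 3) + 2 * π by ring, sin_add_two_pi]
  have t3 := s3 0
  have t4 := s3 1
  have t5 := s3 2
  have t6 := s3 3
  have t7 := s3 4
  simp only [Finset.sum_range_succ, Finset.sum_range_zero, pp, ha]
  simp only [pp, ha] at h5
  norm_num at t3 t4 t5 t6 t7 s1 s2 h5 ⊢
  rw [t7, t6, t5, t4, s1, s2]
  have r3 : 1 ≤ √3 := one_le_sqrt.mpr (by norm_num)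
  have b4 := pow_le_pow_left₀ q0.le q2.le 4
  have b16 := pow_le_pow_left₀ (by norm_num) q1.le 16
  have b25 := pow_le_pow_left₀ q0.le q2.le 25
  have b64 := pow_le_pow_left₀ q0.le q2.le 64
  have b49 := pow_pos q0 49
  have c1 : 0.01 ≤ q - 2 * q ^ 4 + 4 * q ^ 16 - 5 * q ^ 25 + 7 * q ^ 49 := by
    norm_num at b4 b16 b25 ⊢; linarith
  have c2 : q ^ 64 ≤ 0.0001 := b64.trans (by norm_num)
  nlinarith [mul_le_mul r3 c1 (by norm_num) (by linarith)]

theorem choose_eps (G D : ℝ) (hD : 0 < D) : ∃ ε : ℝ, 0 < ε ∧ ε < 1 / 7 ∧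
    (1 + 8 * π ^ 2 * ε ^ 2) * ∑' k, (G * aa k - ε * D * pp k + ε ^ 2 * G * qq k)
      < ∑' k, G * aa k := by
  have e : ∀ ε : ℝ, ∑' k, (G * aa k - ε * D * pp k + ε ^ 2 * G * qq k)
      = G * ∑' k, aa k - ε * D * ∑' k, pp k + ε ^ 2 * G * ∑' k, qq k := fun ε => by
    rw [((sa.mul_left _).sub (sp.mul_left _)).tsum_add (sq'.mul_left _),
      (sa.mul_left _).tsum_sub (sp.mul_left _), tsum_mul_left, tsum_mul_left, tsum_mul_left]
  simp only [e, tsum_mul_left]
  have hP := mul_pos hD ppos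
  generalize ∑' k, aa k = A at *
  generalize ∑' k, pp k = P at *
  generalize ∑' k, qq k = Q at *
  have hc : ContinuousAt (fun ε : ℝ => 8 * π ^ 2 * ε * (G * A - ε * D * P + ε ^ 2 * G * Q)
      + ε * G * Q) 0 := by fun_prop
  have h1 := hc.tendsto.eventually (gt_mem_nhds (a := D * P) (by simpa using hP))
  obtain ⟨ε, h2, h3, h4⟩ := ((h1.filter_mono nhdsWithin_le_nhds).and
    ((Ioo_mem_nhdsGT (show (0 : ℝ) < 1 / 7 by norm_num)))).exists
  exact ⟨ε, h3, h4, by nlinarith [mul_lt_mul_of_pos_left h2 h3]⟩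

end Pool.Agent.H.MP_b76267_pr
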