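import Mathlib
import Pool.Agent.H.MP_b76267_pr.Sum

set_option autoImplicit false
open Real Filter Topology MeasureTheory
open scoped ENNReal NNReal

namespace Pool.Agent.H.MP_b76267_pr

abbrev E2 := EuclideanSpace ℝ (Fin 2)
abbrev E3 := EuclideanSpace ℝ (Fin 3)

noncomputable def ca : ℝ := √(1 / 6)
noncomputable def cb : ℝ := √(1 / 2)
theorem ca2 : ca ^ 2 = 1 / 6 := sq_sqrt (by norm_num)
theorem cb2 : cb ^ 2 = 1 / 2 := sq_sqrt (by norm_num)
theorem ca0 : 0 < ca := sqrt_pos.mpr (by norm_num)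
theorem cb0 : 0 < cb := sqrt_pos.mpr (by norm_num)

noncomputable def sg (k : ℤ) (z : E2) : ℝ := sin (2 * π * (k / 3 + 2 * ca * z 0))

noncomputable def FF (ε : ℝ) (k : ℤ) (z : E2) : E3 :=
  !₂[k / 3 + 2 * ca * z 0 + ε * sg k z, k / 3 - ca * z 0 + cb * z 1 + ε * sg k z,
    k / 3 - ca * z 0 - cb * z 1 + ε * sg k z]

theorem FF_norm (ε : ℝ) (k : ℤ) (z : E2) :
    ‖FF ε k z‖ ^ 2 = ‖z‖ ^ 2 + (k + 3 * ε * sg k z) ^ 2 / 3 := by
  simp only [EuclideanSpace.real_norm_sq_eq, Fin.sum_univ_three, Fin.sum_univ_two, FF]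
  simp
  linear_combination (6 * z 0 ^ 2) * ca2 + (2 * z 1 ^ 2) * cb2

theorem FF_dist (ε : ℝ) (k : ℤ) (z w : E2) :
    dist (FF ε k z) (FF ε k w) ^ 2 = dist z w ^ 2 + 3 * ε ^ 2 * (sg k z - sg k w) ^ 2 := by
  simp only [dist_eq_norm, EuclideanSpace.real_norm_sq_eq, Fin.sum_univ_three, Fin.sum_univ_two, FF]
  simp
  linear_combination (6 * (z 0 - w 0) ^ 2) * ca2 + (2 * (z 1 - w 1) ^ 2) * cb2

theorem FF_lip (ε : ℝ) (k : ℤ) :
    LipschitzWith (NNReal.sqrt (1 + 8 * π ^ 2 * ε ^ 2).toNNReal) (FF ε k) := by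
  refine LipschitzWith.of_dist_le_mul fun z w => ?_
  refine (sq_le_sq₀ dist_nonneg (by positivity)).mp ?_
  rw [mul_pow, FF_dist, ← NNReal.coe_pow, NNReal.sq_sqrt, coe_toNNReal _ (by positivity)]
  have h1 : |sg k z - sg k w| ≤ |4 * π * ca * (z 0 - w 0)| := by
    refine (abs_sin_sub_sin_le _ _).trans (le_of_eq ?_)
    congr 1; ring
  have h2 : (z 0 - w 0) ^ 2 ≤ dist z w ^ 2 := by
    simp only [dist_eq_norm, EuclideanSpace.real_norm_sq_eq, Fin.sum_univ_two]
    simp; positivity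
  have h3 := sq_le_sq.mpr h1
  rw [mul_pow, mul_pow, ca2] at h3
  nlinarith [mul_le_mul_of_nonneg_left h3 (sq_nonneg ε),
    mul_le_mul_of_nonneg_left h2 (mul_nonneg (sq_nonneg π) (sq_nonneg ε))]

theorem FF_iso (k : ℤ) : Isometry (FF 0 k) := Isometry.of_dist_eq fun z w => by
  have := FF_dist 0 k z w
  exact (sq_eq_sq₀ dist_nonneg dist_nonneg).mp (by simpa using this)

theorem area_le (F : E2 → E3) (L : ℝ≥0) (hF : LipschitzWith L F) (γ : E3 → ℝ≥0∞)
    (hγ : Measurable γ) :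
    ∫⁻ x in Set.range F, γ x ∂μHE[2] ≤ (L : ℝ≥0∞) ^ 2 * ∫⁻ z, γ (F z) := by
  have hm := hF.continuous.measurable
  rw [← lintegral_map hγ hm, ← smul_eq_mul, ← lintegral_smul_measure]
  refine lintegral_mono' (Measure.le_iff.mpr fun A hA => ?_) le_rfl
  rw [Measure.restrict_apply hA, ← Set.image_preimage_eq_inter_range, Measure.smul_apply,
    Measure.map_apply hm hA, ← EuclideanSpace.euclideanHausdorffMeasure_eq_volume]
  simp only [Measure.euclideanHausdorffMeasure_def, Measure.smul_apply, ENNReal.smul_def,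
    smul_eq_mul]
  rw [mul_left_comm]
  refine mul_le_mul_right ?_ _
  simpa using hF.hausdorffMeasure_image_le (d := (2 : ℕ)) (by positivity) (F ⁻¹' A)

theorem area_eq (k : ℤ) (γ : E3 → ℝ≥0∞) (hγ : Measurable γ) :
    ∫⁻ x in Set.range (FF 0 k), γ x ∂μHE[2] = ∫⁻ z, γ (FF 0 k z) := by
  rw [← (FF_iso k).map_euclideanHausdorffMeasure, lintegral_map hγ (FF_iso k).continuous.measurable,
    EuclideanSpace.euclideanHausdorffMeasure_eq_volume]

noncomputable def ee (z : E2) : ℝ := exp (-‖z‖ ^ 2 / 2)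

theorem ee_int : Integrable ee := by
  have := (GaussianFourier.integrable_cexp_neg_mul_sq_norm_add (V := E2) (b := 1 / 2)
    (by norm_num) 0 0).norm
  refine this.congr (ae_of_all _ fun z => ?_)
  simp only [Complex.norm_exp, ee]
  congr 1
  simp [← Complex.ofReal_pow]; ring

theorem sg_cont (k : ℤ) : Continuous (sg k) := by unfold sg; fun_prop

theorem es_int (k : ℤ) : Integrable fun z => ee z * sg k z :=
  ee_int.mul_bdd (c := 1) (sg_cont k).aestronglyMeasurable
    (ae_of_all _ fun _ => abs_sin_le_one _)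

theorem es_val : ∃ D : ℝ, 0 < D ∧ ∀ k : ℤ, ∫ z, ee z * sg k z = sin (2 * π * (k / 3)) * D := by
  let w : E2 := !₂[4 * π * ca, 0]
  have h1 := GaussianFourier.integral_cexp_neg_mul_sq_norm_add (V := E2) (b := 1 / 2)
    (by norm_num) Complex.I w
  have h2 := GaussianFourier.integrable_cexp_neg_mul_sq_norm_add (V := E2) (b := 1 / 2)
    (by norm_num) Complex.I w
  refine ⟨2 * π * exp (-‖w‖ ^ 2 / 2), by positivity, fun k => ?_⟩
  have h3 : ∫ v : E2, Complex.exp (-(1 / 2) * ‖v‖ ^ 2 + Complex.I * (inner ℝ w v : ℝ))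
      = ((2 * π * exp (-‖w‖ ^ 2 / 2) : ℝ) : ℂ) := by
    rw [h1]; simp; ring_nf
  have h4 := integral_im (𝕜 := ℂ) (h2.const_mul (Complex.exp (Complex.I * (2 * π * (k / 3) : ℝ))))
  rw [integral_const_mul, h3] at h4
  simp only [RCLike.im_to_complex, ← Complex.exp_add] at h4
  rw [Complex.mul_im, Complex.ofReal_im, Complex.ofReal_re, mul_zero, zero_add, mul_comm Complex.I,
    Complex.exp_ofReal_mul_I_im] at h4
  rw [← h4]
  refine integral_congr_ae (ae_of_all _ fun z => ?_)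
  simp only [Complex.exp_im, ee, sg]
  have : inner ℝ w z = 4 * π * ca * z 0 := by
    simp [w, PiLp.inner_apply, Fin.sum_univ_two]; ring
  rw [this]
  congr 2
  · simp [← Complex.ofReal_pow]; ring
  · simp [← Complex.ofReal_pow]; ring

theorem exp_le (x : ℝ) : exp x ≤ 1 + x + x ^ 2 * exp |x| := by
  rcases le_total x 0 with h | h
  · have h1 := add_one_le_exp (-x)
    have h2 : exp x * exp (-x) = 1 := by rw [← exp_add]; simp
    have h3 := exp_pos x
    have h4 : exp x ≤ 1 := exp_le_one_iff.mpr h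
    have h5 : 1 ≤ exp |x| := one_le_exp (abs_nonneg _)
    have h6 : exp x * (1 - x) ≤ 1 := by nlinarith
    have h7 : exp x ≤ 1 + x + x ^ 2 := by
      refine le_of_mul_le_mul_right (h6.trans ?_) (show 0 < 1 - x by linarith)
      nlinarith [mul_nonneg (sq_nonneg x) (neg_nonneg.mpr h)]
    nlinarith [mul_le_mul_of_nonneg_left h5 (sq_nonneg x)]
  · have h1 := add_one_le_exp (-x)
    have h2 : exp x * exp (-x) = 1 := by rw [← exp_add]; simp
    have h3 := exp_pos x
    have h6 : exp x ≤ 1 + x * exp x := by nlinarith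
    rw [abs_of_nonneg h]
    nlinarith [mul_le_mul_of_nonneg_left h6 h]

theorem ptw (ε : ℝ) (h0 : 0 ≤ ε) (h1 : ε ≤ 1) (k : ℤ) (z : E2) :
    exp (-‖FF ε k z‖ ^ 2 / 2)
      ≤ aa k * ee z - ε * k * aa k * (ee z * sg k z) + ε ^ 2 * qq k * ee z := by
  have hs : |sg k z| ≤ 1 := abs_sin_le_one _
  have a1 : exp (-‖FF ε k z‖ ^ 2 / 2) ≤ ee z * aa k * exp (-(ε * k * sg k z)) := by
    rw [FF_norm, ee, aa, ← exp_add, ← exp_add, exp_le_exp]
    nlinarith [sq_nonneg (ε * sg k z)]
  have a2 : |-(ε * k * sg k z)| ≤ ε * |(k : ℝ)| := by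
    rw [abs_neg, abs_mul, abs_mul, abs_of_nonneg h0]
    exact mul_le_of_le_one_right (by positivity) hs
  have a3 : (-(ε * k * sg k z)) ^ 2 * exp |-(ε * k * sg k z)| ≤ ε ^ 2 * k ^ 2 * exp |(k : ℝ)| := by
    rw [← sq_abs, ← sq_abs (k : ℝ), ← mul_pow]
    exact mul_le_mul (pow_le_pow_left₀ (abs_nonneg _) a2 2) (exp_le_exp.mpr
      (a2.trans (mul_le_of_le_one_left (abs_nonneg _) h1))) (exp_pos _).le (by positivity)
  have a4 := mul_le_mul_of_nonneg_left ((exp_le _).trans (add_le_add le_rfl a3))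
    (mul_pos (show 0 < ee z from exp_pos _) (aa_pos k)).le
  refine (a1.trans a4).trans (le_of_eq ?_)
  rw [qq]; ring

noncomputable def gam (x : E3) : ℝ := (2 * π) ^ (-(3 : ℝ) / 2) * exp (-‖x‖ ^ 2 / 2)

theorem gam_meas : Measurable fun x => ENNReal.ofReal (gam x) := by unfold gam; fun_prop

theorem main : ∃ ε : ℝ, 0 < ε ∧ ε < 1 / 7 ∧
    ∫⁻ x in ⋃ k, Set.range (FF ε k), ENNReal.ofReal (gam x) ∂μHE[2]
      < ∫⁻ x in ⋃ k, Set.range (FF 0 k), ENNReal.ofReal (gam x) ∂μHE[2] ∧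
    ∫⁻ x in ⋃ k, Set.range (FF 0 k), ENNReal.ofReal (gam x) ∂μHE[2] < ⊤ := by
  obtain ⟨D, hD, hD'⟩ := es_val
  obtain ⟨C, hC⟩ : ∃ C : ℝ, C = (2 * π) ^ (-(3 : ℝ) / 2) := ⟨_, rfl⟩
  have C0 : 0 < C := by rw [hC]; positivity
  obtain ⟨ε, h0, h1, h2⟩ := choose_eps (C * ∫ z, ee z) (C * D) (by positivity)
  have G0 : 0 ≤ ∫ z, ee z := integral_nonneg fun _ => (exp_pos _).le
  have hB : ∫⁻ x in ⋃ k, Set.range (FF 0 k), ENNReal.ofReal (gam x) ∂μHE[2]
      = ENNReal.ofReal (∑' k, (C * ∫ z, ee z) * aa k) := by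
    rw [lintegral_iUnion (fun k => (FF_iso k).isClosedEmbedding.isClosed_range.measurableSet),
      ENNReal.ofReal_tsum_of_nonneg (fun k => by have := aa_pos k; positivity) (sa.mul_left _)]
    · refine tsum_congr fun k => ?_
      rw [area_eq k _ gam_meas, mul_right_comm, ← integral_const_mul,
        ofReal_integral_eq_lintegral_ofReal (ee_int.const_mul _)
          (ae_of_all _ fun z => by have := aa_pos k; unfold ee; positivity)]
      refine lintegral_congr fun z => ?_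
      rw [gam, ← hC, FF_norm, aa, ee, mul_assoc C, ← exp_add]
      congr 3; ring
    · intro k l hkl
      refine Set.disjoint_left.mpr ?_
      rintro _ ⟨z, rfl⟩ ⟨w, h⟩
      have e0 := congrArg (fun x : E3 => x 0 + x 1 + x 2) h
      simp [FF] at e0
      exact hkl (by exact_mod_cast (show (k : ℝ) = l by linarith))
  refine ⟨ε, h0, h1, ?_, hB ▸ ENNReal.ofReal_lt_top⟩
  let b : ℤ → E2 → ℝ := fun k z =>
    C * (aa k * ee z - ε * k * aa k * (ee z * sg k z) + ε ^ 2 * qq k * ee z)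
  have i1 : ∀ k, Integrable fun z => aa k * ee z - ε * k * aa k * (ee z * sg k z) := fun k =>
    (ee_int.const_mul _).sub ((es_int k).const_mul _)
  have ib : ∀ k, Integrable (b k) := fun k => ((i1 k).add (ee_int.const_mul _)).const_mul _
  have gb : ∀ k z, gam (FF ε k z) ≤ b k z := fun k z => by
    rw [gam, ← hC]
    exact mul_le_mul_of_nonneg_left (ptw ε h0.le (by linarith) k z) C0.le
  have b0 : ∀ k z, 0 ≤ b k z := fun k z => le_trans (by unfold gam; positivity) (gb k z)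
  have vb : ∀ k, ∫ z, b k z
      = (C * ∫ z, ee z) * aa k - ε * (C * D) * pp k + ε ^ 2 * (C * ∫ z, ee z) * qq k := fun k => by
    simp only [b]
    rw [integral_const_mul, integral_add (i1 k) (ee_int.const_mul _),
      integral_sub (ee_int.const_mul _) ((es_int k).const_mul _), integral_const_mul,
      integral_const_mul, integral_const_mul, hD', pp]
    ring
  have hs : Summable fun k => ∫ z, b k z := by
    simp only [vb]
    exact ((sa.mul_left _).sub (sp.mul_left _)).add (sq'.mul_left _)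
  simp only [← vb] at h2
  have hn : ∀ k, 0 ≤ ∫ z, b k z := fun k => integral_nonneg (b0 k)
  rw [hB]
  refine lt_of_le_of_lt ?_ ((ENNReal.ofReal_lt_ofReal_iff_of_nonneg
    (mul_nonneg (by positivity) (tsum_nonneg hn))).mpr h2)
  rw [ENNReal.ofReal_mul (by positivity), ENNReal.ofReal_tsum_of_nonneg hn hs,
    ← ENNReal.tsum_mul_left]
  refine (lintegral_iUnion_le _ _).trans (ENNReal.tsum_le_tsum fun k => ?_)
  refine (area_le _ _ (FF_lip ε k) _ gam_meas).trans ?_
  rw [← ENNReal.coe_pow, NNReal.sq_sqrt,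
    ofReal_integral_eq_lintegral_ofReal (ib k) (ae_of_all _ (b0 k))]
  exact mul_le_mul_right (lintegral_mono fun z => ENNReal.ofReal_le_ofReal (gb k z)) _

theorem zero_set (ε : ℝ) (u : ℝ → ℝ) (hu : ∀ t, u t + ε * sin (2 * π * u t) = t)
    (hu' : ∀ t, u (t + ε * sin (2 * π * t)) = t) :
    {x : E3 | sin (π * (x 0 + x 1 + x 2 - 3 * ε * sin (2 * π * u (x 0)))) = 0}
      = ⋃ k, Set.range (FF ε k) := by
  ext x
  simp only [Set.mem_ofPred_eq, sin_eq_zero_iff, Set.mem_iUnion, Set.mem_range]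
  refine exists_congr fun k => ⟨fun h => ?_, ?_⟩
  · rw [mul_comm, mul_right_inj' pi_ne_zero] at h
    have h0 := hu (x 0)
    have e1 : k / 3 + 2 * ca * ((u (x 0) - k / 3) / (2 * ca)) = u (x 0) := by
      have := ca0; field_simp; ring
    have e2 : ca * ((u (x 0) - k / 3) / (2 * ca)) = (u (x 0) - k / 3) / 2 := by
      have := ca0; field_simp
    have e3 : cb * ((x 1 - x 2) / (2 * cb)) = (x 1 - x 2) / 2 := by
      have := cb0; field_simp
    refine ⟨!₂[(u (x 0) - k / 3) / (2 * ca), (x 1 - x 2) / (2 * cb)], ?_⟩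
    ext i
    fin_cases i <;> simp [FF, sg, e1, e2, e3] <;> linarith
  · rintro ⟨z, rfl⟩
    have : u (FF ε k z 0) = k / 3 + 2 * ca * z 0 := hu' _
    rw [this, mul_comm]
    congr 1
    simp [FF, sg]; ring

theorem front (h : E3 → ℝ) (hc : Continuous h)
    (hl : ∀ x t, h (x + t • EuclideanSpace.single 1 (1 : ℝ)) = h x + t) :
    frontier {x | 0 ≤ sin (π * h x)} = {x | sin (π * h x) = 0} := by
  have hcl : IsClosed {x | 0 ≤ sin (π * h x)} := isClosed_le continuous_const (by fun_prop)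
  refine Set.Subset.antisymm (fun x hx => (frontier_le_subset_eq continuous_const (by fun_prop) hx).symm)
    fun x hx => ?_
  rw [hcl.frontier_eq]
  refine ⟨le_of_eq hx.symm, fun hi => ?_⟩
  have h1 : ∀ᶠ t : ℝ in 𝓝 0, 0 ≤ cos (π * h x) * sin (π * t) := by
    have : ContinuousAt (fun t : ℝ => x + t • EuclideanSpace.single 1 (1 : ℝ)) 0 := by fun_prop
    filter_upwards [this.eventually (mem_interior_iff_mem_nhds.mp (by simpa using hi))] with t ht
    rw [Set.mem_ofPred_eq] at hx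
    rwa [hl, mul_add, sin_add, hx, zero_mul, zero_add] at ht
  obtain ⟨δ, hδ, h2⟩ := Metric.eventually_nhds_iff.mp h1
  have h3 : 0 < min (δ / 2) (1 / 2) := by positivity
  have h4 := min_le_left (δ / 2) (1 / 2)
  have h5 := min_le_right (δ / 2) (1 / 2)
  generalize min (δ / 2) (1 / 2) = t at *
  have h6 := h2 (y := t) (by rw [Real.dist_eq, sub_zero, abs_of_pos h3]; linarith)
  have h7 := h2 (y := -t) (by rw [Real.dist_eq, sub_zero, abs_neg, abs_of_pos h3]; linarith)
  have h8 : 0 < sin (π * t) := sin_pos_of_pos_of_lt_pi (by positivity) (by nlinarith [pi_pos])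
  rw [mul_neg, sin_neg] at h7
  have h9 : cos (π * h x) = 0 := by
    have : cos (π * h x) * sin (π * t) = 0 := by linarith
    exact (mul_eq_zero.mp this).resolve_right h8.ne'
  have := sin_sq_add_cos_sq (π * h x)
  rw [h9, hx] at this
  norm_num at this

theorem inv_ex (ε : ℝ) (h0 : 0 < ε) (h1 : ε < 1 / 7) : ∃ u : ℝ → ℝ, ContDiff ℝ ⊤ u ∧
    (∀ t, u t + ε * sin (2 * π * u t) = t) ∧ (∀ t, u (t + ε * sin (2 * π * t)) = t) := by
  let β : ℝ → ℝ := fun t => t + ε * sin (2 * π * t)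
  have hd : ∀ t, HasDerivAt β (1 + ε * (cos (2 * π * t) * (2 * π))) t := fun t =>
    (hasDerivAt_id t).add ((((hasDerivAt_id t).const_mul (2 * π)).sin.const_mul ε).congr_deriv
      (by simp))
  have hp : ∀ t, 0 < 1 + ε * (cos (2 * π * t) * (2 * π)) := fun t => by
    have := mul_le_mul_of_nonneg_right (neg_one_le_cos (2 * π * t)) (mul_pos h0 pi_pos).le
    nlinarith [pi_lt_d2, pi_pos]
  have hm : StrictMono β := strictMono_of_deriv_pos fun t => by rw [(hd t).deriv]; exact hp t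
  have hc : ContDiff ℝ ⊤ β := by unfold β; fun_prop
  have hs : Function.Surjective β := by
    refine hc.continuous.surjective ?_ ?_
    · refine tendsto_atTop_mono (f := fun t => t + -ε) (fun t => ?_)
        (tendsto_atTop_add_const_right _ _ tendsto_id)
      simp only [β]; nlinarith [neg_one_le_sin (2 * π * t)]
    · refine tendsto_atBot_mono (f := fun t => t + ε) (fun t => ?_)
        (tendsto_atBot_add_const_right _ _ tendsto_id)
      simp only [β]; nlinarith [sin_le_one (2 * π * t)]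
  let f := (hm.orderIsoOfSurjective β hs).toHomeomorph
  exact ⟨f.symm, f.contDiff_symm_deriv (fun t => (hp t).ne') hd hc, f.apply_symm_apply,
    f.symm_apply_apply⟩

end Pool.Agent.H.MP_b76267_pr
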